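import Pool.Agent.W96.CL.Stm

set_option autoImplicit false

/-! CL-STAR: the exact identity. -/

open Polynomial Filter Topology MeasureTheory

namespace W96CL

theorem star_aux_int {G : ℝ → ℝ} {c z0 : ℝ} (hG : Ev G c) (hz : 0 < z0) :
    IntegrableOn (fun v => G v / Real.sinh (3 * (v + z0) / 2)) (Set.Ioi 0) := by
  obtain ⟨K, hK⟩ := hG.dec
  have hb : 0 < Real.sinh (3 * z0 / 2) := Real.sinh_pos_iff.2 (by positivity)
  have hi : IntegrableOn (fun v : ℝ => ((|c| + |K|) * (2 / Real.sinh (3 * z0 / 2))) *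
      Real.exp (-(3 / 2) * v)) (Set.Ioi 0) :=
    (integrableOn_exp_mul_Ioi (by norm_num) 0).const_mul _
  have hc : Continuous G := hG.diff.continuous
  refine Integrable.mono' hi ?_ ?_
  · exact (hc.measurable.div ((Real.measurable_sinh.comp (by fun_prop)))).aestronglyMeasurable
  · refine (ae_restrict_iff' measurableSet_Ioi).2 (Eventually.of_forall fun v hv => ?_)
    have hv : 0 < v := hv
    have h1 : Real.sinh (3 * z0 / 2) / 2 * Real.exp (3 / 2 * v) ≤ Real.sinh (3 * (v + z0) / 2) := by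
      have e : 3 * (v + z0) / 2 = 3 / 2 * v + 3 * z0 / 2 := by ring
      rw [e, Real.sinh_add]
      have h2 : Real.exp (3 / 2 * v) / 2 ≤ Real.cosh (3 / 2 * v) := by
        rw [Real.cosh_eq]
        have := Real.exp_pos (-(3 / 2 * v))
        linarith
      have h3 : 0 ≤ Real.sinh (3 / 2 * v) * Real.cosh (3 * z0 / 2) :=
        mul_nonneg (Real.sinh_nonneg_iff.2 (by positivity)) (Real.cosh_pos _).le
      nlinarith [mul_le_mul_of_nonneg_right h2 hb.le]
    have h4 : 0 < Real.sinh (3 * z0 / 2) / 2 * Real.exp (3 / 2 * v) := by positivity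
    have h5 : 0 < Real.sinh (3 * (v + z0) / 2) := h4.trans_le h1
    have h6 : |G v| ≤ |c| + |K| := by
      have h7 := (hK v).1
      have h8 : |G v| ≤ |G v - c| + |c| := by
        have := abs_add_le (G v - c) c
        simpa using this
      have h9 : K * Real.exp (-|v|) ≤ |K| := by
        calc K * Real.exp (-|v|) ≤ |K| * Real.exp (-|v|) :=
              mul_le_mul_of_nonneg_right (le_abs_self K) (Real.exp_pos _).le
          _ ≤ |K| * 1 := mul_le_mul_of_nonneg_left
              (Real.exp_le_one_iff.2 (by simp)) (abs_nonneg K)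
          _ = |K| := mul_one _
      linarith
    rw [Real.norm_eq_abs, abs_div, abs_of_pos h5]
    calc |G v| / Real.sinh (3 * (v + z0) / 2)
        ≤ (|c| + |K|) / (Real.sinh (3 * z0 / 2) / 2 * Real.exp (3 / 2 * v)) :=
          div_le_div₀ (by positivity) h6 h4 h1
      _ = (|c| + |K|) * (2 / Real.sinh (3 * z0 / 2)) * Real.exp (-(3 / 2) * v) := by
          rw [show -(3 / 2) * v = -(3 / 2 * v) by ring, Real.exp_neg]
          field_simp

theorem cl_star (h1 : S_int1) (h2 : S_int2) (hd : S_dbl) (he : S_ev) (hq : S_dereq) : S_star := by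
  intro n θ z0 s r lam T
  obtain ⟨i1, e1⟩ := h1 n θ z0 s r lam T
  obtain ⟨i2, e2⟩ := h2 n θ z0 s r lam T
  obtain ⟨ev1, ev2, r0, s0⟩ := he n θ z0 s r lam T
  obtain ⟨q1, q2⟩ := hq n θ z0 s r lam T
  obtain ⟨d1, d2, d3⟩ := hd _ _ _ _ ev1 ev2 (by simp [r0])
  have z0pos := T.z0pos
  -- first identity
  have f1 : Set.EqOn (fun u => deriv r u / r u * Real.log (1 + r u ^ 2) -
      Real.log (1 + r u ^ 2) * ∫ v : ℝ, kk (u - v) * deriv (fun u => Real.log (1 - s u)) v)
      (fun u => dr n θ u * Real.log (1 + r u ^ 2)) (Set.Ioi 0) := by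
    intro u hu
    have := q1 u hu
    simp only []
    rw [this]
    ring
  have I1 : IntegrableOn (fun u => dr n θ u * Real.log (1 + r u ^ 2)) (Set.Ioi 0) :=
    (IntegrableOn.congr_fun (i1.sub d1) f1 measurableSet_Ioi)
  have E1 : ∫ u in Set.Ioi (0 : ℝ), dr n θ u * Real.log (1 + r u ^ 2) = Ph 3 / 2 -
      ∫ u in Set.Ioi (0 : ℝ), Real.log (1 + r u ^ 2) *
        ∫ v : ℝ, kk (u - v) * deriv (fun u => Real.log (1 - s u)) v := by
    rw [← setIntegral_congr_fun measurableSet_Ioi f1, integral_sub i1 d1, e1]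
  -- second identity
  have f2 : (fun u => deriv s u / s u * Real.log (1 - s u) -
      Real.log (1 - s u) * ∫ v : ℝ, kk (u - v) * deriv (fun u => Real.log (1 + r u ^ 2)) v)
      =ᵐ[volume.restrict (Set.Ioi 0)] (fun u => ds z0 u * Real.log (1 - s u)) := by
    rw [Filter.EventuallyEq, ae_restrict_iff' measurableSet_Ioi]
    have : ∀ᵐ u : ℝ, u ≠ z0 := by
      simp [ae_iff]
    filter_upwards [this] with u hu hu0
    have := q2 u hu0 hu
    rw [this]
    ring
  have I2 : IntegrableOn (fun u => ds z0 u * Real.log (1 - s u)) (Set.Ioi 0) :=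
    (i2.sub d2).congr f2
  have E2 : ∫ u in Set.Ioi (0 : ℝ), ds z0 u * Real.log (1 - s u) = Ph 2 - Ph (-s 0) -
      ∫ u in Set.Ioi (0 : ℝ), Real.log (1 - s u) *
        ∫ v : ℝ, kk (u - v) * deriv (fun u => Real.log (1 + r u ^ 2)) v := by
    rw [← integral_congr_ae f2, integral_sub i2 d2, e2]
  -- third identity
  have J1 := star_aux_int ev1 z0pos
  have J2 : IntegrableOn (fun v => Real.log (1 - s v) / Real.sinh (3 * (v - z0) / 2))
      (Set.Ioi 0) := by
    have h := (I2.const_mul (2 / 3)).sub J1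
    refine IntegrableOn.congr_fun h ?_ measurableSet_Ioi
    intro u _
    simp only [ds, Pi.sub_apply]
    ring
  have J3 : IntegrableOn (fun v => Real.log (1 - s v) / Real.sinh (3 * (v - z0) / 2))
      (Set.Iic 0) := by
    have h := (integrableOn_Ici_iff_integrableOn_Ioi (b := (0 : ℝ))).2 J1.neg
    have h' := (MeasureTheory.MeasurePreserving.integrableOn_comp_preimage
      (Measure.measurePreserving_neg (volume : Measure ℝ))
      (MeasurableEquiv.neg ℝ).measurableEmbedding (s := Set.Ici 0)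
      (f := fun v => -(Real.log (1 - s v) / Real.sinh (3 * (v + z0) / 2)))).2 h
    have hs : (fun x : ℝ => -x) ⁻¹' Set.Ici (0 : ℝ) = Set.Iic 0 := by
      ext x; simp
    rw [hs] at h'
    refine IntegrableOn.congr_fun h' ?_ measurableSet_Iic
    intro u _
    have e : 3 * (-u + z0) / 2 = -(3 * (u - z0) / 2) := by ring
    simp only [Function.comp, e, Real.sinh_neg, T.s_even, div_neg, neg_neg]
  have E3 : ∫ v : ℝ, Real.log (1 - s v) / Real.sinh (3 * (v - z0) / 2) =
      (∫ v in Set.Ioi (0 : ℝ), Real.log (1 - s v) / Real.sinh (3 * (v - z0) / 2)) -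
      ∫ v in Set.Ioi (0 : ℝ), Real.log (1 - s v) / Real.sinh (3 * (v + z0) / 2) := by
    rw [← intervalIntegral.integral_Iic_add_Ioi J3 J2]
    have : ∫ v in Set.Iic (0 : ℝ), Real.log (1 - s v) / Real.sinh (3 * (v - z0) / 2) =
        ∫ v in Set.Ioi (0 : ℝ), -(Real.log (1 - s v) / Real.sinh (3 * (v + z0) / 2)) := by
      have h := integral_comp_neg_Ioi (0 : ℝ)
        (fun v => Real.log (1 - s v) / Real.sinh (3 * (v - z0) / 2))
      rw [neg_zero] at h
      rw [← h]
      refine setIntegral_congr_fun measurableSet_Ioi fun u _ => ?_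
      have e : 3 * (-u - z0) / 2 = -(3 * (u + z0) / 2) := by ring
      simp only [e, Real.sinh_neg, T.s_even, div_neg]
    rw [this, integral_neg]
    ring
  have E4 : ∫ u in Set.Ioi (0 : ℝ), ds z0 u * Real.log (1 - s u) =
      3 / 2 * (∫ v in Set.Ioi (0 : ℝ), Real.log (1 - s v) / Real.sinh (3 * (v - z0) / 2)) +
      3 / 2 * ∫ v in Set.Ioi (0 : ℝ), Real.log (1 - s v) / Real.sinh (3 * (v + z0) / 2) := by
    rw [← integral_const_mul, ← integral_const_mul, ← integral_add (J2.const_mul _) (J1.const_mul _)]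
    refine setIntegral_congr_fun measurableSet_Ioi fun u _ => ?_
    simp only [ds]
    ring
  refine ⟨I1, ?_⟩
  have Q := T.quant
  have l4 : Real.log 4 = 2 * Real.log 2 := by
    rw [show (4 : ℝ) = 2 ^ 2 by norm_num, Real.log_pow]
    norm_num
  rw [l4] at d3
  rw [E3] at Q
  have hpi : Real.pi ≠ 0 := Real.pi_ne_zero
  have Q' : 3 / 2 * ((∫ v in Set.Ioi (0 : ℝ), Real.log (1 - s v) / Real.sinh (3 * (v - z0) / 2)) -
      ∫ v in Set.Ioi (0 : ℝ), Real.log (1 - s v) / Real.sinh (3 * (v + z0) / 2)) =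
      Real.pi ^ 2 - 4 * Real.pi * n * Real.arctan (Real.cos (3 * θ / 2) / Real.sinh (3 * z0 / 2))
      - 2 * Real.pi * Real.arccos (Real.tanh (3 * z0 / 2)) := by
    have : 3 / 2 * ((∫ v in Set.Ioi (0 : ℝ), Real.log (1 - s v) / Real.sinh (3 * (v - z0) / 2)) -
      ∫ v in Set.Ioi (0 : ℝ), Real.log (1 - s v) / Real.sinh (3 * (v + z0) / 2)) =
      2 * Real.pi * (3 / (4 * Real.pi) *
      ((∫ v in Set.Ioi (0 : ℝ), Real.log (1 - s v) / Real.sinh (3 * (v - z0) / 2)) -
      ∫ v in Set.Ioi (0 : ℝ), Real.log (1 - s v) / Real.sinh (3 * (v + z0) / 2))) := by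
      field_simp
      ring
    rw [this]
    linear_combination 2 * Real.pi * Q
  linarith [E1, E2, E4, Q', d3]

end W96CL
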